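import Mathlib

/-!
# The structure of positive integers with `+`, `x * 2 ^ y`, `≤`, `1` is not automatic

Growth argument: in an automatic presentation the length of the word for `x + y` or `x * 2 ^ y`
exceeds the lengths of the words for `x` and `y` by at most a constant, so that only exponentially
many elements are generated from `1` in `n` steps; but doubly exponentially many are.
-/

set_option autoImplicit false

namespace Pool.Agent.Results.MP_34afd1_lc.NotAutomatic

/-- The convolution of a tuple of words: its length is the maximal length of the words, and its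
`j`-th letter is the tuple of the `j`-th letters of the words, where `none` is the padding symbol
used beyond the end of a word. -/
def conv {σ : Type} {k : ℕ} (w : Fin k → List σ) : List (Fin k → Option σ) :=
  (List.range (Finset.univ.sup fun i => (w i).length)).map fun j i => (w i)[j]?

/-- A relation on words is automatic if the set of convolutions of its tuples is regular. -/
def AutomaticRel {σ : Type} {k : ℕ} (R : Set (Fin k → List σ)) : Prop :=
  Language.IsRegular (conv '' R : Language (Fin k → Option σ))

/-- `f` is an automatic presentation, over the alphabet `σ`, of the structure of the positive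
integers with addition, the function `(x, y) ↦ x * 2 ^ y`, the order and the constant `1`: `f` is a
bijection from the positive integers onto a regular language, and the images of the graphs of the
two functions and of the order are automatic relations. -/
structure AutomaticPresentation (σ : Type) (f : ℕ+ → List σ) : Prop where
  injective : Function.Injective f
  domain : Language.IsRegular (Set.range f : Language σ)
  add : AutomaticRel {w : Fin 3 → List σ | ∃ x y : ℕ+, w = ![f x, f y, f (x + y)]}
  mulPow : AutomaticRel {w : Fin 3 → List σ | ∃ x y : ℕ+, w = ![f x, f y, f (x * 2 ^ (y : ℕ))]}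
  le : AutomaticRel {w : Fin 2 → List σ | ∃ x y : ℕ+, x ≤ y ∧ w = ![f x, f y]}

theorem length_conv {σ : Type} {k : ℕ} (w : Fin k → List σ) :
    (conv w).length = Finset.univ.sup fun i => (w i).length := by
  simp [conv]

theorem filterMap_range_getElem? {σ : Type} (l : List σ) (n : ℕ) (hn : l.length ≤ n) :
    (List.range n).filterMap (fun j => l[j]?) = l := by
  induction l using List.reverseRecOn generalizing n with
  | nil => simp
  | append_singleton l a ih =>
    obtain ⟨m, rfl⟩ : ∃ m, n = l.length + 1 + m := ⟨n - (l.length + 1), by simp at hn; omega⟩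
    rw [show l.length + 1 + m = l.length + (1 + m) by ring, List.range_add, List.filterMap_append]
    congr 1
    · rw [show (List.range l.length).filterMap (fun j => (l ++ [a])[j]?)
          = (List.range l.length).filterMap (fun j => l[j]?) from ?_]
      · exact ih _ le_rfl
      · apply List.filterMap_congr
        intro j hj
        rw [List.mem_range] at hj
        rw [List.getElem?_append_left hj]
    · rw [List.filterMap_map, List.range_add, List.filterMap_append]
      have h1 : (List.range 1).filterMap ((fun j => (l ++ [a])[j]?) ∘ fun x => l.length + x)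
          = [a] := by
        simp [List.range_succ]
      rw [h1]
      have h2 : (List.map (fun x => 1 + x) (List.range m)).filterMap
          ((fun j => (l ++ [a])[j]?) ∘ fun x => l.length + x) = [] := by
        rw [List.filterMap_eq_nil_iff]
        intro b hb
        simp only [List.mem_map, List.mem_range] at hb
        obtain ⟨c, _, rfl⟩ := hb
        simp
      rw [h2, List.append_nil]

theorem filterMap_conv {σ : Type} {k : ℕ} (w : Fin k → List σ) (i : Fin k) :
    (conv w).filterMap (fun t => t i) = w i := by
  unfold conv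
  rw [List.filterMap_map]
  exact filterMap_range_getElem? _ _ (Finset.le_sup (f := fun i => (w i).length) (Finset.mem_univ i))

/-- Length bound for automatic functions of two variables. -/
theorem length_bound {σ : Type} (R : Set (Fin 3 → List σ)) (hR : AutomaticRel R)
    (hf : ∀ a b c c', ![a, b, c] ∈ R → ![a, b, c'] ∈ R → c = c') :
    ∃ C : ℕ, ∀ a b c, ![a, b, c] ∈ R → c.length ≤ max a.length b.length + C := by
  classical
  obtain ⟨Q, hQ, M, hM⟩ := hR
  refine ⟨Fintype.card Q, ?_⟩
  intro a b c habc
  by_contra hlt
  push Not at hlt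
  set w : Fin 3 → List σ := ![a, b, c] with hw
  set m := max a.length b.length with hm
  have hlen : (conv w).length = c.length := by
    rw [length_conv]
    apply le_antisymm
    · apply Finset.sup_le
      intro i _
      fin_cases i
      · show a.length ≤ _; omega
      · show b.length ≤ _; omega
      · show c.length ≤ _; omega
    · exact Finset.le_sup (f := fun i => (w i).length) (Finset.mem_univ (2 : Fin 3))
  -- split after `m` letters
  set u := (conv w).take m with hu
  set v := (conv w).drop m with hv
  have huv : conv w = u ++ v := (List.take_append_drop m _).symm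
  have hvlen : v.length = c.length - m := by rw [hv, List.length_drop, hlen]
  have hmem : conv w ∈ M.accepts := by
    rw [hM]; exact ⟨w, habc, rfl⟩
  -- the first two tracks of `v` consist of padding
  have hv0 : ∀ t ∈ v, t 0 = none ∧ t 1 = none := by
    intro t ht
    rw [hv, List.mem_iff_getElem?] at ht
    obtain ⟨j, hj⟩ := ht
    rw [List.getElem?_drop] at hj
    unfold conv at hj
    rw [List.getElem?_map] at hj
    obtain ⟨j', hj1, hj2⟩ := Option.map_eq_some_iff.1 hj
    have hj3 : j' = m + j := by
      rw [List.getElem?_range (by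
        by_contra hc
        rw [List.getElem?_eq_none (by simpa using hc)] at hj1
        simp at hj1)] at hj1
      simpa using hj1.symm
    subst hj2
    subst hj3
    constructor
    · show a[m + j]? = none
      rw [List.getElem?_eq_none]; omega
    · show b[m + j]? = none
      rw [List.getElem?_eq_none]; omega
  obtain ⟨q, x, y, z, hxyz, -, hy, hq1, hq2, hq3⟩ :=
    M.evalFrom_split (s := M.eval u) (x := v) (by rw [hvlen]; omega) rfl
  have hmem' : u ++ (x ++ z) ∈ M.accepts := by
    rw [DFA.mem_accepts] at hmem ⊢
    rw [huv] at hmem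
    unfold DFA.eval at hmem hq1 hq3 ⊢
    rw [DFA.evalFrom_of_append] at hmem ⊢
    rw [DFA.evalFrom_of_append, hq1, hq3]
    exact hmem
  rw [hM] at hmem'
  obtain ⟨w', hw', hconv⟩ := hmem'
  have tr : ∀ i, w' i = (u ++ (x ++ z)).filterMap (fun t => t i) := by
    intro i
    rw [← hconv, filterMap_conv]
  have tr0 : ∀ i, w i = (u ++ v).filterMap (fun t => t i) := by
    intro i
    rw [← huv, filterMap_conv]
  have nil_of : ∀ (l : List (Fin 3 → Option σ)), (∀ t ∈ l, t ∈ v) → ∀ i : Fin 3, (i = 0 ∨ i = 1) →
      l.filterMap (fun t => t i) = [] := by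
    intro l hl i hi
    rw [List.filterMap_eq_nil_iff]
    intro t ht
    rcases hi with rfl | rfl
    · exact (hv0 t (hl t ht)).1
    · exact (hv0 t (hl t ht)).2
  have hxz : ∀ t ∈ x ++ z, t ∈ v := by
    intro t ht
    rw [hxyz]
    simp only [List.mem_append] at ht ⊢
    tauto
  have same : ∀ i : Fin 3, (i = 0 ∨ i = 1) → w' i = w i := by
    intro i hi
    rw [tr, tr0, List.filterMap_append, nil_of _ hxz i hi, List.filterMap_append,
      nil_of v (fun t ht => ht) i hi]
  have hw'3 : w' = ![a, b, w' 2] := by
    funext i
    fin_cases i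
    · exact same 0 (Or.inl rfl)
    · exact same 1 (Or.inr rfl)
    · rfl
  have hc : c = w' 2 := hf a b c (w' 2) habc (by rw [← hw'3]; exact hw')
  have hww : w' = w := by rw [hw'3, ← hc]
  have : (conv w').length = (conv w).length := by rw [hww]
  rw [hconv, huv, hxyz] at this
  simp only [List.length_append] at this
  have : y.length = 0 := by omega
  exact hy (List.length_eq_zero_iff.1 this)

/-- The elements generated from `1` in `n` steps. -/
def Gen : ℕ → Set ℕ+
  | 0 => {1}
  | n + 1 => Gen n ∪ {z | ∃ x ∈ Gen n, ∃ y ∈ Gen n, z = x + y ∨ z = x * 2 ^ (y : ℕ)}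

theorem gen_mono {n m : ℕ} (h : n ≤ m) : Gen n ⊆ Gen m := by
  induction h with
  | refl => exact subset_rfl
  | step _ ih => exact ih.trans Set.subset_union_left

theorem one_mem (n : ℕ) : (1 : ℕ+) ∈ Gen n := gen_mono (Nat.zero_le n) rfl

/-- There are doubly exponentially many odd elements generated in `2 k + 2` steps. -/
theorem many (k : ℕ) : ∃ s : Finset ℕ+, s.card = 2 ^ 2 ^ k ∧ (∀ x ∈ s, x ∈ Gen (2 * k + 2)) ∧
    ∀ x ∈ s, Odd (x : ℕ) := by
  induction k with
  | zero =>
    refine ⟨{1, 3}, by decide, ?_, ?_⟩
    · have h2 : (2 : ℕ+) ∈ Gen 1 := Or.inr ⟨1, rfl, 1, rfl, Or.inl rfl⟩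
      have h3 : (3 : ℕ+) ∈ Gen 2 := Or.inr ⟨1, one_mem 1, 2, h2, Or.inl rfl⟩
      intro x hx
      simp only [Finset.mem_insert, Finset.mem_singleton] at hx
      rcases hx with rfl | rfl
      · exact one_mem _
      · exact h3
    · intro x hx
      simp only [Finset.mem_insert, Finset.mem_singleton] at hx
      rcases hx with rfl | rfl
      · exact odd_one
      · exact ⟨1, rfl⟩
  | succ k ih =>
    obtain ⟨s, hs, hs1, hs2⟩ := ih
    refine ⟨(s ×ˢ s).image fun p => p.1 * 2 ^ (p.2 : ℕ) + 1, ?_, ?_, ?_⟩
    · rw [Finset.card_image_of_injOn]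
      · rw [Finset.card_product, hs, ← pow_add, ← two_mul, ← pow_succ']
      · rintro ⟨a, b⟩ hab ⟨c, d⟩ hcd h
        simp only [Finset.coe_product, Set.mem_prod, Finset.mem_coe] at hab hcd
        have h1 : (a : ℕ) * 2 ^ (b : ℕ) = (c : ℕ) * 2 ^ (d : ℕ) := by
          have := congrArg (fun x : ℕ+ => (x : ℕ)) h
          simpa using this
        have h2 : (b : ℕ) = d := by
          have e1 : ∀ (x y : ℕ), Odd x → padicValNat 2 (x * 2 ^ y) = y := by
            intro x y hx
            have hx0 : x ≠ 0 := by rintro rfl; simp at hx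
            rw [padicValNat.mul hx0 (by positivity), padicValNat.prime_pow,
              padicValNat.eq_zero_of_not_dvd (by
                intro hd; exact (Nat.not_even_iff_odd.2 hx) (even_iff_two_dvd.2 hd)), zero_add]
          rw [← e1 a b (hs2 a hab.1), ← e1 c d (hs2 c hcd.1), h1]
        have h3 : (a : ℕ) = c := by
          rw [h2] at h1
          exact Nat.eq_of_mul_eq_mul_right (by positivity) h1
        exact Prod.ext (PNat.coe_injective h3) (PNat.coe_injective h2)
    · intro x hx
      simp only [Finset.mem_image, Finset.mem_product, Prod.exists] at hx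
      obtain ⟨a, b, ⟨ha, hb⟩, rfl⟩ := hx
      have h1 : a * 2 ^ (b : ℕ) ∈ Gen (2 * k + 2 + 1) :=
        Or.inr ⟨a, hs1 a ha, b, hs1 b hb, Or.inr rfl⟩
      exact Or.inr ⟨_, h1, 1, one_mem _, Or.inl rfl⟩
    · intro x hx
      simp only [Finset.mem_image, Finset.mem_product, Prod.exists] at hx
      obtain ⟨a, b, ⟨ha, hb⟩, rfl⟩ := hx
      rw [PNat.add_coe, PNat.mul_coe, PNat.pow_coe]
      have hb0 : (b : ℕ) ≠ 0 := b.ne_zero
      have : Even ((a : ℕ) * ((2 : ℕ+) : ℕ) ^ (b : ℕ)) := by
        apply Even.mul_left
        exact (Nat.even_pow.2 ⟨by decide, hb0⟩)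
      exact this.add_one

/-- The lengths of the words of generated elements grow at most linearly. -/
theorem length_gen {σ : Type} (f : ℕ+ → List σ) (C : ℕ)
    (h1 : ∀ x y : ℕ+, (f (x + y)).length ≤ max (f x).length (f y).length + C)
    (h2 : ∀ x y : ℕ+, (f (x * 2 ^ (y : ℕ))).length ≤ max (f x).length (f y).length + C) (n : ℕ) :
    ∀ x ∈ Gen n, (f x).length ≤ (f 1).length + n * C := by
  induction n with
  | zero =>
    intro x hx
    have : x = 1 := hx
    subst this
    omega
  | succ n ih =>
    intro x hx
    rcases hx with hx | ⟨a, ha, b, hb, rfl | rfl⟩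
    · have := ih x hx
      rw [add_mul]
      omega
    · have ha' := ih a ha
      have hb' := ih b hb
      have := h1 a b
      rw [add_mul]
      omega
    · have ha' := ih a ha
      have hb' := ih b hb
      have := h2 a b
      rw [add_mul]
      omega

/-- Only exponentially many words have length at most `L`. -/
theorem card_words {σ α : Type} [Fintype σ] (f : α → List σ) (hf : Function.Injective f) (L : ℕ)
    (s : Finset α) (hs : ∀ x ∈ s, (f x).length ≤ L) : s.card ≤ (Fintype.card σ + 1) ^ L := by
  classical
  have hinj : Set.InjOn (fun x => fun j : Fin L => (f x)[(j : ℕ)]?) s := by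
    intro x hx y hy h
    apply hf
    apply List.ext_getElem?
    intro j
    by_cases hj : j < L
    · exact congrFun h ⟨j, hj⟩
    · rw [List.getElem?_eq_none (by have := hs x hx; omega),
        List.getElem?_eq_none (by have := hs y hy; omega)]
  calc s.card = (s.image fun x => fun j : Fin L => (f x)[(j : ℕ)]?).card :=
        (Finset.card_image_of_injOn hinj).symm
    _ ≤ Fintype.card (Fin L → Option σ) := Finset.card_le_univ _
    _ = (Fintype.card σ + 1) ^ L := by simp

theorem exists_big (A D : ℕ) : ∃ k : ℕ, A + D * k < 2 ^ k := by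
  set j := A + D + 1 with hj
  refine ⟨3 * j, ?_⟩
  have h : j < 2 ^ j := Nat.lt_two_pow_self
  have h1 : (j + 1) ^ 3 ≤ 2 ^ (3 * j) := by
    rw [mul_comm, pow_mul]
    exact Nat.pow_le_pow_left (by omega) 3
  have h2 : D ≤ j := by omega
  have h3 : D * (3 * j) ≤ 3 * j ^ 2 := by nlinarith
  nlinarith [sq_nonneg j]

/-- The two functions alone have no automatic presentation. -/
theorem no_pair {σ : Type} [Finite σ] (f : ℕ+ → List σ) (hf : Function.Injective f)
    (h1 : AutomaticRel {w : Fin 3 → List σ | ∃ x y : ℕ+, w = ![f x, f y, f (x + y)]})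
    (h2 : AutomaticRel {w : Fin 3 → List σ | ∃ x y : ℕ+, w = ![f x, f y, f (x * 2 ^ (y : ℕ))]}) :
    False := by
  have := Fintype.ofFinite σ
  have fn : ∀ g : ℕ+ → ℕ+ → ℕ+, ∀ a b c c' : List σ,
      ![a, b, c] ∈ {w : Fin 3 → List σ | ∃ x y : ℕ+, w = ![f x, f y, f (g x y)]} →
      ![a, b, c'] ∈ {w : Fin 3 → List σ | ∃ x y : ℕ+, w = ![f x, f y, f (g x y)]} → c = c' := by
    rintro g a b c c' ⟨x, y, h⟩ ⟨x', y', h'⟩
    have e0 := congrFun h 0
    have e1 := congrFun h 1
    have e2 := congrFun h 2
    have e0' := congrFun h' 0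
    have e1' := congrFun h' 1
    have e2' := congrFun h' 2
    simp at e0 e1 e2 e0' e1' e2'
    have hx : x = x' := hf (e0.symm.trans e0')
    have hy : y = y' := hf (e1.symm.trans e1')
    rw [e2, e2', hx, hy]
  obtain ⟨C₁, hC₁⟩ := length_bound _ h1 (fn _)
  obtain ⟨C₂, hC₂⟩ := length_bound _ h2 (fn _)
  have hlen := length_gen f (C₁ + C₂)
    (fun x y => (hC₁ _ _ _ ⟨x, y, rfl⟩).trans (by omega))
    (fun x y => (hC₂ _ _ _ ⟨x, y, rfl⟩).trans (by omega))
  set C := C₁ + C₂
  set B := (f 1).length
  set K := Fintype.card σ + 1
  obtain ⟨k, hk⟩ := exists_big (K * (B + 2 * C)) (K * (2 * C))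
  obtain ⟨s, hs, hs1, -⟩ := many k
  have h3 : s.card ≤ K ^ (B + (2 * k + 2) * C) :=
    card_words f hf _ s fun x hx => hlen _ x (hs1 x hx)
  rw [hs] at h3
  have h4 : K ^ (B + (2 * k + 2) * C) ≤ (2 ^ K) ^ (B + (2 * k + 2) * C) :=
    Nat.pow_le_pow_left (Nat.lt_two_pow_self).le _
  rw [← pow_mul] at h4
  have h5 : 2 ^ k ≤ K * (B + (2 * k + 2) * C) := (Nat.pow_le_pow_iff_right (by norm_num)).1
    (h3.trans h4)
  have h6 : K * (B + (2 * k + 2) * C) = K * (B + 2 * C) + K * (2 * C) * k := by ring
  omega

/-- The structure of the positive integers with `+`, `x * 2 ^ y`, `≤` and `1` has no automatic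
presentation. -/
theorem result :
    ¬ ∃ (σ : Type) (_ : Finite σ) (f : ℕ+ → List σ), AutomaticPresentation σ f := by
  rintro ⟨σ, _, f, hf⟩
  exact no_pair f hf.injective hf.add hf.mulPow

end Pool.Agent.Results.MP_34afd1_lc.NotAutomatic
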